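import Pool.Agent.Lib_helper52.EPS.Defs

set_option autoImplicit false

namespace Pool.Agent.EPS

open MeasureTheory Set Filter Topology

/-- substitution by an increasing map into the line -/
theorem sub_le {Θ D : ℝ → ℝ} (hΘ : ∀ x, HasDerivAt Θ (D x) x) (hD : ∀ x, 0 < D x) {s : ℝ → ℝ}
    (s0 : ∀ x, 0 ≤ s x) (hs : Integrable s) :
    Integrable (fun x => s (Θ x) * D x) ∧ ∫ x, s (Θ x) * D x ≤ ∫ x, s x := by
  have hmono : StrictMono Θ := strictMono_of_deriv_pos (fun x => by rw [(hΘ x).deriv]; exact hD x)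
  have hinj : InjOn Θ univ := hmono.injective.injOn
  have hder : ∀ x ∈ (univ : Set ℝ), HasDerivWithinAt Θ (D x) univ x :=
    fun x _ => (hΘ x).hasDerivWithinAt
  have e : (fun x => |D x| • s (Θ x)) = fun x => s (Θ x) * D x := by
    funext x
    rw [abs_of_pos (hD x), smul_eq_mul, mul_comm]
  have h1 := (integrableOn_image_iff_integrableOn_abs_deriv_smul MeasurableSet.univ hder hinj s).1
    hs.integrableOn
  have h2 := integral_image_eq_integral_abs_deriv_smul MeasurableSet.univ hder hinj s
  rw [e] at h1 h2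
  rw [setIntegral_univ] at h2
  rw [integrableOn_univ] at h1
  refine ⟨h1, ?_⟩
  rw [← h2]
  exact setIntegral_le_integral hs (Eventually.of_forall s0)

end Pool.Agent.EPS
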